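import Mathlib

set_option autoImplicit false

namespace Pool.Agent.Results.MP_8a5df5_al.NotQuantumPerm

open Complex

/-- A system of relations for an `n × n` array of elements of a complex star algebra. -/
def RelSys (n : ℕ) : Type 1 :=
  ∀ (C : Type) [Ring C] [StarRing C] [Algebra ℂ C] [StarModule ℂ C], (Fin n → Fin n → C) → Prop

/-- `B` is the universal star algebra generated by the entries of `u` subject to the relations `R`. -/
def IsUniversal {n : ℕ} (R : RelSys n) (B : Type) [Ring B] [StarRing B] [Algebra ℂ B] [StarModule ℂ B]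
    (u : Fin n → Fin n → B) : Prop :=
  R B u ∧ StarAlgebra.adjoin ℂ {x | ∃ i j, x = u i j} = ⊤ ∧
    ∀ (C : Type) [Ring C] [StarRing C] [Algebra ℂ C] [StarModule ℂ C] (w : Fin n → Fin n → C),
      R C w → ∃ φ : B →⋆ₐ[ℂ] C, ∀ i j, φ (u i j) = w i j

/-- The relations of a magic unitary: `u_ij = u_ij^* = u_ij^2`, all rows and columns sum to `1`. These are the
relations of the quantum symmetric group `S_N^+`. -/
def Magic (N : ℕ) : RelSys N := fun C _ _ _ _ v =>
  (∀ i j, star (v i j) = v i j) ∧ (∀ i j, v i j * v i j = v i j) ∧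
    (∀ i, ∑ j, v i j = (1 : C)) ∧ (∀ j, ∑ i, v i j = (1 : C))

open Classical in
/-- The relations of the quantum automorphism group of a graph: a magic unitary commuting with the adjacency
matrix. -/
def GraphRel {N : ℕ} (X : SimpleGraph (Fin N)) : RelSys N := fun C _ _ _ _ v =>
  Magic N C v ∧ ∀ i j, (∑ k, if X.Adj k j then v i k else 0) = ∑ k, if X.Adj i k then v k j else 0

/-- The relations of the free hyperoctahedral quantum group `H_n^+`: self-adjoint entries, orthogonal,
cubic. -/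
def Hyper (n : ℕ) : RelSys n := fun C _ _ _ _ u =>
  (∀ i j, star (u i j) = u i j) ∧
    (∀ i j, ∑ k, u i k * u j k = if i = j then (1 : C) else 0) ∧
    (∀ i j, ∑ k, u k i * u k j = if i = j then (1 : C) else 0) ∧
    (∀ i j k, j ≠ k → u i j * u i k = 0 ∧ u j i * u k i = 0)

/-- The projective version: the star subalgebra generated by all products `u_ij u_kl`. -/
def proj {n : ℕ} {B : Type} [Ring B] [StarRing B] [Algebra ℂ B] [StarModule ℂ B]
    (u : Fin n → Fin n → B) : StarSubalgebra ℂ B :=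
  StarAlgebra.adjoin ℂ {x | ∃ i j k l, x = u i j * u k l}

/-! ### the representation -/

/-- continuous functions on the line -/
abbrev R : Type := C(ℝ, ℂ)

/-- the function `exp (i t)` -/
noncomputable def ex : R := ⟨fun t => Complex.exp (t * I), by fun_prop⟩

theorem ex_star : star ex * ex = 1 := by
  ext t
  simp only [ContinuousMap.mul_apply, ContinuousMap.star_apply, ContinuousMap.one_apply, ex,
    ContinuousMap.coe_mk]
  rw [RCLike.star_def, ← Complex.exp_conj, ← Complex.exp_add]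
  simp

theorem ex_star' : ex * star ex = 1 := by rw [mul_comm, ex_star]

abbrev M : Type := Matrix (Fin 2) (Fin 2) R

/-- first involution -/
noncomputable def ga : M := !![0, 1; 1, 0]

/-- second involution -/
noncomputable def gb : M := !![0, ex; star ex, 0]

theorem ga_star : star ga = ga := by
  ext i j : 2
  fin_cases i <;> fin_cases j <;> simp [ga, Matrix.star_apply]

theorem gb_star : star gb = gb := by
  ext i j : 2
  fin_cases i <;> fin_cases j <;> simp [gb, Matrix.star_apply]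

theorem ga_sq : ga * ga = 1 := by
  ext i j : 2
  fin_cases i <;> fin_cases j <;> simp [ga, Matrix.mul_apply, Fin.sum_univ_two]

theorem gb_sq : gb * gb = 1 := by
  ext i j : 2
  fin_cases i <;> fin_cases j <;> simp [gb, Matrix.mul_apply, Fin.sum_univ_two, ex_star, ex_star']

/-- the images of the generators -/
noncomputable def w (n : ℕ) (i j : Fin n) : M := if i = j then (if (i : ℕ) = 0 then ga else gb) else 0

theorem w_star (n : ℕ) (i j : Fin n) : star (w n i j) = w n i j := by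
  unfold w; split_ifs <;> simp [ga_star, gb_star]

theorem w_sq (n : ℕ) (i : Fin n) : w n i i * w n i i = 1 := by
  unfold w; rw [if_pos rfl]; split_ifs
  · exact ga_sq
  · exact gb_sq

theorem w_ne (n : ℕ) {i j : Fin n} (h : i ≠ j) : w n i j = 0 := if_neg h

theorem w_hyper (n : ℕ) : Hyper n M (w n) := by
  refine ⟨w_star n, fun i j => ?_, fun i j => ?_, fun i j k hjk => ⟨?_, ?_⟩⟩
  · rw [Finset.sum_eq_single i (fun k _ hk => by rw [w_ne n hk.symm, zero_mul]) (fun h => absurd (Finset.mem_univ _) h)]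
    split_ifs with h
    · subst h; exact w_sq n i
    · rw [w_ne n (fun h' => h h'.symm), mul_zero]
  · rw [Finset.sum_eq_single i (fun k _ hk => by rw [w_ne n hk, zero_mul]) (fun h => absurd (Finset.mem_univ _) h)]
    split_ifs with h
    · subst h; exact w_sq n i
    · rw [w_ne n h, mul_zero]
  · by_cases h : i = j
    · rw [w_ne n (i := i) (j := k) (fun h' => hjk (h ▸ h')), mul_zero]
    · rw [w_ne n h, zero_mul]
  · by_cases h : j = i
    · rw [w_ne n (i := k) (j := i) (fun h' => hjk (h.trans h'.symm)), mul_zero]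
    · rw [w_ne n h, zero_mul]

/-- antidiagonal matrices -/
theorem w_anti (n : ℕ) (i j : Fin n) : w n i j 0 0 = 0 ∧ w n i j 1 1 = 0 := by
  unfold w; split_ifs <;> simp [ga, gb]

/-- the diagonal matrices -/
def Dg : StarSubalgebra ℂ M where
  carrier := {m | m 0 1 = 0 ∧ m 1 0 = 0}
  mul_mem' := by
    rintro a b ⟨h1, h2⟩ ⟨h3, h4⟩
    constructor <;> simp [Matrix.mul_apply, Fin.sum_univ_two, h1, h2, h3, h4]
  add_mem' := by
    rintro a b ⟨h1, h2⟩ ⟨h3, h4⟩
    constructor <;> simp [h1, h2, h3, h4]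
  algebraMap_mem' c := by
    constructor <;> simp [Matrix.algebraMap_matrix_apply]
  star_mem' := by
    rintro a ⟨h1, h2⟩
    constructor <;> simp [Matrix.star_apply, h1, h2]

/-- the diagonal matrices with constant first entry -/
def Tg : StarSubalgebra ℂ M where
  carrier := {m | (m 0 1 = 0 ∧ m 1 0 = 0) ∧ ∃ c : ℂ, ∀ t, m 0 0 t = c}
  mul_mem' := by
    rintro a b ⟨⟨h1, h2⟩, c, hc⟩ ⟨⟨h3, h4⟩, c', hc'⟩
    refine ⟨⟨?_, ?_⟩, c * c', fun t => ?_⟩
    · simp [Matrix.mul_apply, Fin.sum_univ_two, h1, h3]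
    · simp [Matrix.mul_apply, Fin.sum_univ_two, h2, h4]
    · simp [Matrix.mul_apply, Fin.sum_univ_two, h1, hc, hc']
  add_mem' := by
    rintro a b ⟨⟨h1, h2⟩, c, hc⟩ ⟨⟨h3, h4⟩, c', hc'⟩
    refine ⟨⟨?_, ?_⟩, c + c', fun t => ?_⟩
    · simp [h1, h3]
    · simp [h2, h4]
    · simp [hc, hc']
  algebraMap_mem' c := by
    refine ⟨⟨?_, ?_⟩, c, fun t => ?_⟩ <;> simp [Matrix.algebraMap_matrix_apply]
  star_mem' := by
    rintro a ⟨⟨h1, h2⟩, c, hc⟩
    refine ⟨⟨?_, ?_⟩, star c, fun t => ?_⟩ <;> simp [Matrix.star_apply, h1, h2, hc]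

theorem idem_const (f : R) (hf : f * f = f) : ∃ c : ℂ, ∀ t, f t = c := by
  have h1 : ∀ t, f t = 0 ∨ f t = 1 := by
    intro t
    have := congrArg (fun g : R => g t) hf
    simp only [ContinuousMap.mul_apply] at this
    have h2 : f t * (f t - 1) = 0 := by rw [mul_sub, this]; ring
    rcases mul_eq_zero.1 h2 with h | h
    · exact Or.inl h
    · exact Or.inr (sub_eq_zero.1 h)
  have h2 : IsClopen {t | f t = 0} := by
    refine ⟨isClosed_eq f.continuous continuous_const, ?_⟩
    have : {t | f t = 0} = {t | f t = 1}ᶜ := by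
      ext t
      simp only [Set.mem_compl_iff]
      constructor
      · intro (h : f t = 0) (h' : f t = 1)
        rw [h] at h'; exact zero_ne_one h'
      · intro h
        exact (h1 t).resolve_right h
    rw [this]
    exact (isClosed_eq f.continuous continuous_const).isOpen_compl
  rcases isClopen_iff.1 h2 with h | h
  · refine ⟨1, fun t => (h1 t).resolve_left fun h' => ?_⟩
    have : t ∈ {t | f t = 0} := h'
    rw [h] at this; exact this
  · refine ⟨0, fun t => ?_⟩
    have : t ∈ {t | f t = 0} := by rw [h]; trivial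
    exact this

theorem main {n : ℕ} (hn : 2 ≤ n) {B : Type} [Ring B] [StarRing B] [Algebra ℂ B] [StarModule ℂ B]
    {u : Fin n → Fin n → B} (hu : IsUniversal (Hyper n) B u) {N : ℕ} {D : Type} [Ring D] [StarRing D]
    [Algebra ℂ D] [StarModule ℂ D] {v : Fin N → Fin N → D} (hv : Magic N D v)
    (hgen : StarAlgebra.adjoin ℂ {x | ∃ i j, x = v i j} = ⊤) (ψ : D →⋆ₐ[ℂ] proj u) :
    ¬ Function.Surjective ψ := by
  intro hsurj
  obtain ⟨φ, hφ⟩ := hu.2.2 M (w n) (w_hyper n)
  have hdiag : proj u ≤ Dg.comap φ := by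
    apply StarAlgebra.adjoin_le
    rintro _ ⟨i, j, k, l, rfl⟩
    change φ (u i j * u k l) ∈ Dg
    rw [map_mul, hφ, hφ]
    obtain ⟨h1, h2⟩ := w_anti n i j
    obtain ⟨h3, h4⟩ := w_anti n k l
    constructor <;> simp [Matrix.mul_apply, Fin.sum_univ_two, h1, h2, h3, h4]
  let θ : D →⋆ₐ[ℂ] M := (φ.comp (proj u).subtype).comp ψ
  have hT : (⊤ : StarSubalgebra ℂ D) ≤ Tg.comap θ := by
    rw [← hgen]
    apply StarAlgebra.adjoin_le
    rintro _ ⟨i, j, rfl⟩
    change θ (v i j) ∈ Tg
    have h1 : θ (v i j) ∈ Dg := hdiag (ψ (v i j)).2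
    refine ⟨h1, idem_const _ ?_⟩
    have h2 : θ (v i j) * θ (v i j) = θ (v i j) := by rw [← map_mul, hv.2.1]
    have h3 := congrArg (fun m : M => m 0 0) h2
    simp only [Matrix.mul_apply, Fin.sum_univ_two, h1.1, zero_mul, add_zero] at h3
    exact h3
  have hmem : u ⟨0, by omega⟩ ⟨0, by omega⟩ * u ⟨1, by omega⟩ ⟨1, by omega⟩ ∈ proj u :=
    StarAlgebra.subset_adjoin _ _ ⟨_, _, _, _, rfl⟩
  obtain ⟨x, hx⟩ := hsurj ⟨_, hmem⟩
  obtain ⟨-, c, hc⟩ : θ x ∈ Tg := hT (trivial : x ∈ (⊤ : StarSubalgebra ℂ D))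
  have h1 : θ x = ga * gb := by
    change φ (ψ x).1 = _
    rw [hx, map_mul, hφ, hφ]
    simp [w]
  rw [h1] at hc
  have h2 : ∀ t : ℝ, (ga * gb) 0 0 t = star (Complex.exp (t * I)) := by
    intro t
    simp [ga, gb, Matrix.mul_apply, Fin.sum_univ_two, ex]
  have h3 := (hc 0).trans (hc Real.pi).symm
  rw [h2, h2, Complex.exp_pi_mul_I] at h3
  simp at h3
  norm_num at h3

/-- For every `n ≥ 2`, `PH_n^+` is not a quantum permutation group: no star homomorphism from `O(S_N^+)` onto
`O(PH_n^+)` exists, for any `N`; and `O(PH_n^+)` is not isomorphic to `O(G^+(X))` for any finite graph `X`. -/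
theorem result (n : ℕ) (hn : 2 ≤ n) (B : Type) [Ring B] [StarRing B] [Algebra ℂ B] [StarModule ℂ B]
    (u : Fin n → Fin n → B) (hu : IsUniversal (Hyper n) B u) :
    (∀ (N : ℕ) (D : Type) [Ring D] [StarRing D] [Algebra ℂ D] [StarModule ℂ D] (v : Fin N → Fin N → D),
      IsUniversal (Magic N) D v → ¬ ∃ ψ : D →⋆ₐ[ℂ] proj u, Function.Surjective ψ) ∧
    (∀ (N : ℕ) (X : SimpleGraph (Fin N)) (D : Type) [Ring D] [StarRing D] [Algebra ℂ D] [StarModule ℂ D]
      (v : Fin N → Fin N → D), IsUniversal (GraphRel X) D v → ¬ Nonempty (D ≃⋆ₐ[ℂ] proj u)) := by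
  constructor
  · rintro N D _ _ _ _ v hv ⟨ψ, hψ⟩
    exact main hn hu hv.1 hv.2.1 ψ hψ
  · rintro N X D _ _ _ _ v hv ⟨ψ⟩
    exact main hn hu hv.1.1 hv.2.1 (ψ : D →⋆ₐ[ℂ] proj u) ψ.surjective

end Pool.Agent.Results.MP_8a5df5_al.NotQuantumPerm
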